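import Pool.Agent.K1H53.BI.Plan

/-!
# Summation of the one-step inequalities
-/

set_option autoImplicit false

open scoped ENNReal
open Finset

namespace Pool.Agent.K1H63.BI

open Pool.Agent.K1H53.BI

/-- the initial state -/
def s0 (T : ℕ) : St := ⟨{0}, [], T - 1⟩

theorem sum_le (κ : St → PMF St) (T : ℕ) (H : ∀ n s, (law κ T n) s ≠ 0 → Good s) (G a b : St → ℝ≥0∞)
    (h : ∀ s, Good s → Ex (κ s) G + a s ≤ G s + b s) (n : ℕ) :
    Ex (law κ T n) G + ∑ u ∈ range n, Ex (law κ T u) a ≤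
      G (s0 T) + ∑ u ∈ range n, Ex (law κ T u) b := by
  induction n with
  | zero => simp [law, Ex_pure, s0]
  | succ n ih =>
    rw [sum_range_succ, sum_range_succ]
    have h1 : Ex (law κ T (n + 1)) G + Ex (law κ T n) a ≤ Ex (law κ T n) G + Ex (law κ T n) b := by
      have h2 : Ex (law κ T (n + 1)) G = Ex (law κ T n) (fun s => Ex (κ s) G) := by
        show Ex ((law κ T n).bind κ) G = _
        rw [Ex_bind]
      rw [h2, ← Ex_add, ← Ex_add]
      exact Ex_mono _ fun s hs => h s (H n s hs)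
    calc Ex (law κ T (n + 1)) G + (∑ u ∈ range n, Ex (law κ T u) a + Ex (law κ T n) a)
        = (Ex (law κ T (n + 1)) G + Ex (law κ T n) a) + ∑ u ∈ range n, Ex (law κ T u) a := by ring
      _ ≤ (Ex (law κ T n) G + Ex (law κ T n) b) + ∑ u ∈ range n, Ex (law κ T u) a := by gcongr
      _ = (Ex (law κ T n) G + ∑ u ∈ range n, Ex (law κ T u) a) + Ex (law κ T n) b := by ring
      _ ≤ (G (s0 T) + ∑ u ∈ range n, Ex (law κ T u) b) + Ex (law κ T n) b := by gcongr
      _ = _ := by ring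

theorem sum_eq (κ : St → PMF St) (T : ℕ) (H : ∀ n s, (law κ T n) s ≠ 0 → Good s) (G b : St → ℝ≥0∞)
    (h : ∀ s, Good s → Ex (κ s) G = G s + b s) (n : ℕ) :
    Ex (law κ T n) G = G (s0 T) + ∑ u ∈ range n, Ex (law κ T u) b := by
  induction n with
  | zero => simp [law, Ex_pure, s0]
  | succ n ih =>
    have h2 : Ex (law κ T (n + 1)) G = Ex (law κ T n) (fun s => Ex (κ s) G) := by
      show Ex ((law κ T n).bind κ) G = _
      rw [Ex_bind]
    rw [h2, Ex_congr (law κ T n) (fun s hs => h s (H n s hs)), Ex_add, ih, sum_range_succ]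
    ring

theorem yy_s0 {T : ℕ} (hT : 1 ≤ T) : yy (s0 T) = T := by
  simp only [yy, s0, card_singleton, List.length_nil]
  omega

theorem VV_s0 (R T : ℕ) : VV R (s0 T) = (T - 1) * (R + 1) ^ 2 := by
  simp [VV, s0]

theorem ZZ_s0 (T : ℕ) : ZZ (s0 T) = 0 := by
  simp [ZZ, s0, nsq]

theorem VV_le (R : ℕ) (s : St) : VV R s ≤ (R + 1) ^ 2 * yy s := by
  have h1 : (s.L.map fun x => (R + 1) ^ 2 - nsq x).sum ≤ s.L.length * (R + 1) ^ 2 := by
    have h2 := List.sum_le_card_nsmul (s.L.map fun x => (R + 1) ^ 2 - nsq x) ((R + 1) ^ 2) (by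
      intro y hy
      obtain ⟨x, -, rfl⟩ := List.mem_map.1 hy
      exact Nat.sub_le _ _)
    simpa using h2
  calc VV R s ≤ s.L.length * (R + 1) ^ 2 + s.m * (R + 1) ^ 2 := Nat.add_le_add_right h1 _
    _ ≤ (R + 1) ^ 2 * yy s := by
      unfold yy
      nlinarith [Nat.zero_le (s.A.card * (R + 1) ^ 2)]

theorem en_le (ν : PMF ℕ) (σ2 M : ℝ) (R T n : ℕ) (hO : Off ν σ2 M) (hinv : S_INV) (htwo : S_TWO) :
    EN ν R T n ≤ T * (R + 1) ^ 2 := by
  have h := sum_le (stepD ν R) T (fun n s => (hinv ν R T n s).2) (fun s => (VV R s : ℝ≥0∞)) (ind (Proc R))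
    (fun _ => 0) (fun s hs => by simpa using (htwo ν σ2 M R s 0 hO hs).1) n
  have h0 : ∑ u ∈ range n, Ex (law (stepD ν R) T u) (fun _ => (0 : ℝ≥0∞)) = 0 := by
    simp [Ex]
  rw [h0, add_zero, VV_s0] at h
  refine (le_trans le_add_self h).trans ?_
  have h1 : (((T - 1) * (R + 1) ^ 2 : ℕ) : ℝ≥0∞) ≤ ((T * (R + 1) ^ 2 : ℕ) : ℝ≥0∞) := by
    exact_mod_cast Nat.mul_le_mul_right _ (Nat.sub_le T 1)
  refine h1.trans (le_of_eq ?_)
  push_cast
  ring

theorem yy_eq (ν : PMF ℕ) (σ2 M : ℝ) (R T n : ℕ) (hO : Off ν σ2 M) (hT : 1 ≤ T) (hinv : S_INV)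
    (hone : S_ONE) : Ex (law (stepD ν R) T n) (fun s => (yy s : ℝ≥0∞)) = T := by
  have h := sum_eq (stepD ν R) T (fun n s => (hinv ν R T n s).2) (fun s => (yy s : ℝ≥0∞)) (fun _ => 0)
    (fun s hs => by simpa using (hone ν σ2 M R s 0 hO hs).1) n
  have h0 : ∑ u ∈ range n, Ex (law (stepD ν R) T u) (fun _ => (0 : ℝ≥0∞)) = 0 := by
    simp [Ex]
  rw [h0, add_zero, yy_s0 hT] at h
  exact h

/-- **Piece SUM0.** -/
theorem t_SUM0 : S_SUM0 := by
  intro hinv hone htwo ν σ2 M R T n hO hT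
  exact ⟨yy_eq ν σ2 M R T n hO hT hinv hone, en_le ν σ2 M R T n hO hinv htwo⟩

theorem sum_const_mul (κ : St → PMF St) (T n : ℕ) (c : ℝ≥0∞) (g : St → ℝ≥0∞) :
    ∑ u ∈ range n, Ex (law κ T u) (fun s => c * g s) = c * ∑ u ∈ range n, Ex (law κ T u) g := by
  rw [mul_sum]
  exact sum_congr rfl fun u _ => Ex_const_mul _ _ _

theorem sum_add (κ : St → PMF St) (T n : ℕ) (g h : St → ℝ≥0∞) :
    ∑ u ∈ range n, Ex (law κ T u) (fun s => g s + h s) =
      ∑ u ∈ range n, Ex (law κ T u) g + ∑ u ∈ range n, Ex (law κ T u) h := by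
  rw [← sum_add_distrib]
  exact sum_congr rfl fun u _ => Ex_add _ _ _

theorem cast_nonneg_w (T : ℕ) (hT : 1 ≤ T) (k : ℕ) (hk : k ≠ 0) :
    ENNReal.ofReal (((yy (s0 T) : ℝ) - T) ^ k) = 0 := by
  rw [yy_s0 hT]
  simp [hk]

/-- **Piece SUM.** -/
theorem t_SUM : S_SUM := by
  intro hinv hgz hone htwo ν σ2 M R T n hO hT hRT
  have hH : ∀ n s, (law (stepD ν R) T n) s ≠ 0 → Good s := fun n s => (hinv ν R T n s).2
  have hEN := en_le ν σ2 M R T n hO hinv htwo
  have hM1 : 1 ≤ M := hO.one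
  have hM0 : 0 ≤ M := by linarith
  have hT1 : (1 : ℝ) ≤ T := by exact_mod_cast hT
  have hρ1 : (1 : ℝ) ≤ ((R : ℝ) + 1) ^ 2 := by
    have : (0 : ℝ) ≤ R := Nat.cast_nonneg R
    nlinarith
  have hρT : ((R : ℝ) + 1) ^ 2 ≤ T := by exact_mod_cast hRT
  set ρ2 : ℝ := ((R : ℝ) + 1) ^ 2 with hρ2
  have hρ0 : 0 ≤ ρ2 := by linarith
  have hcast : ((T : ℝ≥0∞) * ((R : ℝ≥0∞) + 1) ^ 2) = ENNReal.ofReal (T * ρ2) := by
    have h1 : ((T : ℝ) * ρ2) = (((T * (R + 1) ^ 2 : ℕ)) : ℝ) := by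
      rw [hρ2]; push_cast; ring
    rw [h1, ENNReal.ofReal_natCast]
    push_cast
    ring
  have hENr : EN ν R T n ≤ ENNReal.ofReal (T * ρ2) := hcast ▸ hEN
  refine ⟨yy_eq ν σ2 M R T n hO hT hinv hone, hEN, ?_, ?_, ?_⟩
  · -- second moment
    have h := sum_eq (stepD ν R) T hH (fun s => ENNReal.ofReal (((yy s : ℝ) - T) ^ 2))
      (fun s => ENNReal.ofReal σ2 * ind (Proc R) s)
      (fun s hs => (hone ν σ2 M R s T hO hs).2.1) n
    rw [h, sum_const_mul, cast_nonneg_w T hT 2 (by norm_num), zero_add]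
    rfl
  · -- fourth moment
    -- the sum of E [yy; branching]
    have hAY : ∑ u ∈ range n, Ex (law (stepD ν R) T u) (fun s => (yy s : ℝ≥0∞) * ind (Proc R) s) ≤
        ENNReal.ofReal (2 * M * T ^ 2 * ρ2) := by
      have h := sum_le (stepD ν R) T hH (fun s => (yy s : ℝ≥0∞) * (VV R s : ℝ≥0∞))
        (fun s => (yy s : ℝ≥0∞) * ind (Proc R) s)
        (fun s => ENNReal.ofReal (M * (R + 1) ^ 2) * ind (Proc R) s)
        (fun s hs => (htwo ν σ2 M R s 0 hO hs).2.1) n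
      rw [sum_const_mul] at h
      refine (le_trans le_add_self h).trans ?_
      have h1 : (yy (s0 T) : ℝ≥0∞) * (VV R (s0 T) : ℝ≥0∞) ≤ ENNReal.ofReal (T * (T * ρ2)) := by
        rw [yy_s0 hT, VV_s0]
        have h2 : ((T : ℝ) * (T * ρ2)) = (((T * (T * (R + 1) ^ 2) : ℕ)) : ℝ) := by
          rw [hρ2]; push_cast; ring
        rw [h2, ENNReal.ofReal_natCast, ← Nat.cast_mul]
        exact_mod_cast Nat.mul_le_mul_left _ (Nat.mul_le_mul_right _ (Nat.sub_le T 1))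
      have h3 : ENNReal.ofReal (M * (R + 1) ^ 2) * EN ν R T n ≤ ENNReal.ofReal ((M * ρ2) * (T * ρ2)) := by
        have e : ENNReal.ofReal ((M * ρ2) * (T * ρ2)) = ENNReal.ofReal (M * ρ2) * ENNReal.ofReal (T * ρ2) :=
          ENNReal.ofReal_mul (by positivity)
        rw [e]
        exact mul_le_mul' le_rfl hENr
      calc (yy (s0 T) : ℝ≥0∞) * (VV R (s0 T) : ℝ≥0∞) + ENNReal.ofReal (M * (R + 1) ^ 2) *
            ∑ u ∈ range n, Ex (law (stepD ν R) T u) (ind (Proc R))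
          ≤ ENNReal.ofReal (T * (T * ρ2)) + ENNReal.ofReal ((M * ρ2) * (T * ρ2)) := add_le_add h1 h3
        _ = ENNReal.ofReal (T * (T * ρ2) + (M * ρ2) * (T * ρ2)) := by
            rw [ENNReal.ofReal_add (by positivity) (by positivity)]
        _ ≤ ENNReal.ofReal (2 * M * T ^ 2 * ρ2) := by
            apply ENNReal.ofReal_le_ofReal
            have e1 : (T : ℝ) * (T * ρ2) ≤ M * T ^ 2 * ρ2 := by
              have : 0 ≤ (T : ℝ) ^ 2 * ρ2 := by positivity
              nlinarith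
            have e2 : (M * ρ2) * (T * ρ2) ≤ M * T ^ 2 * ρ2 := by
              have : 0 ≤ M * T * ρ2 := by positivity
              nlinarith
            linarith
    -- the sum of E [VV; branching]
    have hAV : ∑ u ∈ range n, Ex (law (stepD ν R) T u) (fun s => (VV R s : ℝ≥0∞) * ind (Proc R) s) ≤
        ENNReal.ofReal (2 * M * T ^ 2 * ρ2 ^ 2) := by
      have h1 : ∑ u ∈ range n, Ex (law (stepD ν R) T u) (fun s => (VV R s : ℝ≥0∞) * ind (Proc R) s) ≤
          ∑ u ∈ range n, Ex (law (stepD ν R) T u)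
            (fun s => ENNReal.ofReal ρ2 * ((yy s : ℝ≥0∞) * ind (Proc R) s)) := by
        refine sum_le_sum fun u _ => Ex_mono _ fun s _ => ?_
        rw [← mul_assoc]
        refine mul_le_mul' ?_ le_rfl
        have h2 : ρ2 = (((R + 1) ^ 2 : ℕ) : ℝ) := by rw [hρ2]; push_cast; ring
        rw [h2, ENNReal.ofReal_natCast, ← Nat.cast_mul]
        exact_mod_cast VV_le R s
      rw [sum_const_mul] at h1
      refine h1.trans ((mul_le_mul' le_rfl hAY).trans (le_of_eq ?_))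
      rw [← ENNReal.ofReal_mul hρ0]
      congr 1
      ring
    -- the sum of E [w ^ 2; branching]
    have hAW : ∑ u ∈ range n, Ex (law (stepD ν R) T u)
        (fun s => ENNReal.ofReal (((yy s : ℝ) - T) ^ 2) * ind (Proc R) s) ≤
        ENNReal.ofReal (12 * M ^ 2 * T ^ 2 * ρ2 ^ 2) := by
      have h := sum_le (stepD ν R) T hH
        (fun s => ENNReal.ofReal (((yy s : ℝ) - T) ^ 2) * (VV R s : ℝ≥0∞))
        (fun s => ENNReal.ofReal (((yy s : ℝ) - T) ^ 2 / 2) * ind (Proc R) s)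
        (fun s => (ENNReal.ofReal M * VV R s + ENNReal.ofReal (4 * M ^ 2 * (R + 1) ^ 4)) * ind (Proc R) s)
        (fun s hs => (htwo ν σ2 M R s T hO hs).2.2) n
      have h1 := le_trans le_add_self h
      rw [cast_nonneg_w T hT 2 (by norm_num), zero_mul, zero_add] at h1
      have h2 : ∑ u ∈ range n, Ex (law (stepD ν R) T u) (fun s =>
          (ENNReal.ofReal M * VV R s + ENNReal.ofReal (4 * M ^ 2 * (R + 1) ^ 4)) * ind (Proc R) s) =
          ENNReal.ofReal M * ∑ u ∈ range n, Ex (law (stepD ν R) T u)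
            (fun s => (VV R s : ℝ≥0∞) * ind (Proc R) s) +
          ENNReal.ofReal (4 * M ^ 2 * (R + 1) ^ 4) *
            ∑ u ∈ range n, Ex (law (stepD ν R) T u) (ind (Proc R)) := by
        rw [← sum_const_mul, ← sum_const_mul, ← sum_add]
        refine sum_congr rfl fun u _ => Ex_congr _ fun s _ => ?_
        ring
      rw [h2] at h1
      have h3 : ENNReal.ofReal M * ∑ u ∈ range n, Ex (law (stepD ν R) T u)
            (fun s => (VV R s : ℝ≥0∞) * ind (Proc R) s) ≤ ENNReal.ofReal (M * (2 * M * T ^ 2 * ρ2 ^ 2)) := by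
        rw [ENNReal.ofReal_mul hM0]
        exact mul_le_mul' le_rfl hAV
      have h4 : ENNReal.ofReal (4 * M ^ 2 * (R + 1) ^ 4) *
            ∑ u ∈ range n, Ex (law (stepD ν R) T u) (ind (Proc R)) ≤
          ENNReal.ofReal ((4 * M ^ 2 * (R + 1) ^ 4) * (T * ρ2)) := by
        have e : ENNReal.ofReal ((4 * M ^ 2 * (R + 1) ^ 4) * (T * ρ2)) =
            ENNReal.ofReal (4 * M ^ 2 * (R + 1) ^ 4) * ENNReal.ofReal (T * ρ2) :=
          ENNReal.ofReal_mul (by positivity)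
        rw [e]
        exact mul_le_mul' le_rfl hENr
      have h5 : ∑ u ∈ range n, Ex (law (stepD ν R) T u)
          (fun s => ENNReal.ofReal (((yy s : ℝ) - T) ^ 2 / 2) * ind (Proc R) s) ≤
          ENNReal.ofReal (6 * M ^ 2 * T ^ 2 * ρ2 ^ 2) := by
        refine h1.trans ((add_le_add h3 h4).trans ?_)
        rw [← ENNReal.ofReal_add (by positivity) (by positivity)]
        apply ENNReal.ofReal_le_ofReal
        have e0 : ((R : ℝ) + 1) ^ 4 = ρ2 ^ 2 := by rw [hρ2]; ring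
        rw [e0]
        have e2 : (4 * M ^ 2 * ρ2 ^ 2) * (T * ρ2) ≤ 4 * M ^ 2 * T ^ 2 * ρ2 ^ 2 := by
          have : 0 ≤ 4 * M ^ 2 * ρ2 ^ 2 * T := by positivity
          nlinarith
        nlinarith
      have h6 : ∑ u ∈ range n, Ex (law (stepD ν R) T u)
          (fun s => ENNReal.ofReal (((yy s : ℝ) - T) ^ 2) * ind (Proc R) s) =
          ENNReal.ofReal 2 * ∑ u ∈ range n, Ex (law (stepD ν R) T u)
            (fun s => ENNReal.ofReal (((yy s : ℝ) - T) ^ 2 / 2) * ind (Proc R) s) := by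
        rw [← sum_const_mul]
        refine sum_congr rfl fun u _ => Ex_congr _ fun s _ => ?_
        rw [← mul_assoc, ← ENNReal.ofReal_mul (by norm_num)]
        congr 2
        ring
      rw [h6]
      refine (mul_le_mul' le_rfl h5).trans (le_of_eq ?_)
      rw [← ENNReal.ofReal_mul (by norm_num)]
      congr 1
      ring
    -- conclusion
    have h := sum_le (stepD ν R) T hH (fun s => ENNReal.ofReal (((yy s : ℝ) - T) ^ 4)) (fun _ => 0)
      (fun s => ENNReal.ofReal (10 * M) * (ENNReal.ofReal (((yy s : ℝ) - T) ^ 2) + 1) * ind (Proc R) s)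
      (fun s hs => by simpa using (hone ν σ2 M R s T hO hs).2.2) n
    have h1 := le_trans le_self_add h
    rw [cast_nonneg_w T hT 4 (by norm_num), zero_add] at h1
    have h2 : ∑ u ∈ range n, Ex (law (stepD ν R) T u) (fun s =>
        ENNReal.ofReal (10 * M) * (ENNReal.ofReal (((yy s : ℝ) - T) ^ 2) + 1) * ind (Proc R) s) =
        ENNReal.ofReal (10 * M) * (∑ u ∈ range n, Ex (law (stepD ν R) T u)
          (fun s => ENNReal.ofReal (((yy s : ℝ) - T) ^ 2) * ind (Proc R) s) +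
          ∑ u ∈ range n, Ex (law (stepD ν R) T u) (ind (Proc R))) := by
      rw [← sum_add, ← sum_const_mul]
      refine sum_congr rfl fun u _ => Ex_congr _ fun s _ => ?_
      ring
    rw [h2] at h1
    refine h1.trans ((mul_le_mul' le_rfl (add_le_add hAW hENr)).trans ?_)
    rw [← ENNReal.ofReal_add (by positivity) (by positivity), ← ENNReal.ofReal_mul (by positivity)]
    apply ENNReal.ofReal_le_ofReal
    have e0 : ((R : ℝ) + 1) ^ 4 = ρ2 ^ 2 := by rw [hρ2]; ring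
    rw [e0]
    have e1 : (T : ℝ) * ρ2 ≤ M ^ 2 * T ^ 2 * ρ2 ^ 2 := by
      have e2 : (1 : ℝ) ≤ M ^ 2 := by nlinarith
      have e3 : (1 : ℝ) ≤ T * ρ2 := by nlinarith
      have e4 : (T : ℝ) * ρ2 ≤ T ^ 2 * ρ2 ^ 2 := by nlinarith
      have e5 : (T : ℝ) ^ 2 * ρ2 ^ 2 ≤ M ^ 2 * (T ^ 2 * ρ2 ^ 2) := by
        have : 0 ≤ (T : ℝ) ^ 2 * ρ2 ^ 2 := by positivity
        nlinarith
      linarith
    have e6 : 0 ≤ 10 * M := by positivity
    calc 10 * M * (12 * M ^ 2 * T ^ 2 * ρ2 ^ 2 + T * ρ2)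
        ≤ 10 * M * (12 * M ^ 2 * T ^ 2 * ρ2 ^ 2 + M ^ 2 * T ^ 2 * ρ2 ^ 2) := by gcongr
      _ = 130 * M ^ 3 * T ^ 2 * ρ2 ^ 2 := by ring
  · -- the sum of the squared norms
    have h := sum_eq (stepD ν R) T hH (fun s => (ZZ s : ℝ≥0∞)) (ind (Proc R))
      (fun s hs => hgz ν σ2 M R s hO hs) n
    rw [h, ZZ_s0]
    simp [EN]

end Pool.Agent.K1H63.BI
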